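import Pool.Agent.H616Z.Vis.Defs

/-!
Kripke semantics, the canonical model, and a criterion for admitting Visser's rules.
-/

set_option autoImplicit false

namespace Pool.Agent.H616Z.Vis

/-- negation -/
abbrev Fm.neg (a : Fm) : Fm := .imp a .bot

theorem Fm.subst_subst (σ τ : ℕ → Fm) (a : Fm) :
    (a.subst σ).subst τ = a.subst (fun i => (σ i).subst τ) := by
  induction a with
  | var i => rfl
  | bot => rfl
  | imp a b iha ihb => simp only [Fm.subst, iha, ihb]
  | and a b iha ihb => simp only [Fm.subst, iha, ihb]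
  | or a b iha ihb => simp only [Fm.subst, iha, ihb]

theorem Fm.subst_var (a : Fm) : a.subst Fm.var = a := by
  induction a with
  | var i => rfl
  | bot => rfl
  | imp a b iha ihb => simp only [Fm.subst, iha, ihb]
  | and a b iha ihb => simp only [Fm.subst, iha, ihb]
  | or a b iha ihb => simp only [Fm.subst, iha, ihb]

theorem Thm.subst {A a : Fm} (τ : ℕ → Fm) (h : Thm A a) : Thm A (a.subst τ) := by
  induction h with
  | k a b => exact .k _ _
  | s a b c => exact .s _ _ _
  | andl a b => exact .andl _ _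
  | andr a b => exact .andr _ _
  | andi a b => exact .andi _ _
  | orl a b => exact .orl _ _
  | orr a b => exact .orr _ _
  | ore a b c => exact .ore _ _ _
  | efq a => exact .efq _
  | ax σ => rw [Fm.subst_subst]; exact .ax _
  | mp _ _ h1 h2 => exact .mp h1 h2

theorem subst_conj (σ : ℕ → Fm) : ∀ l : List Fm, (conj l).subst σ = conj (l.map (Fm.subst σ))
  | [] => rfl
  | [_] => rfl
  | a :: b :: l => by
    have := subst_conj σ (b :: l)
    simp only [conj, Fm.subst, List.map_cons] at this ⊢
    rw [this]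

theorem subst_disj (σ : ℕ → Fm) : ∀ l : List Fm, (disj l).subst σ = disj (l.map (Fm.subst σ))
  | [] => rfl
  | [_] => rfl
  | a :: b :: l => by
    have := subst_disj σ (b :: l)
    simp only [disj, Fm.subst, List.map_cons] at this ⊢
    rw [this]

/-- Kripke models -/
structure Model (W : Type) where
  le : W → W → Prop
  v : ℕ → W → Prop
  refl : ∀ x, le x x
  trans : ∀ {x y z}, le x y → le y z → le x z
  mono : ∀ {i x y}, le x y → v i x → v i y

namespace Model

variable {W : Type} (M : Model W)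

/-- forcing -/
def force : Fm → W → Prop
  | .var i, w => M.v i w
  | .bot, _ => False
  | .imp a b, w => ∀ u, M.le w u → force a u → force b u
  | .and a b, w => force a w ∧ force b w
  | .or a b, w => force a w ∨ force b w

theorem force_mono {a : Fm} : ∀ {x y : W}, M.le x y → M.force a x → M.force a y := by
  induction a with
  | var i => exact fun h h1 => M.mono h h1
  | bot => exact fun _ h => h
  | imp a b _ _ => exact fun h h1 u hu => h1 u (M.trans h hu)
  | and a b iha ihb => exact fun h h1 => ⟨iha h h1.1, ihb h h1.2⟩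
  | or a b iha ihb => exact fun h h1 => h1.imp (iha h) (ihb h)

/-- the model with the valuation pulled back along a substitution -/
def pull (σ : ℕ → Fm) : Model W where
  le := M.le
  v i := M.force (σ i)
  refl := M.refl
  trans := M.trans
  mono := M.force_mono

theorem force_subst (σ : ℕ → Fm) (a : Fm) :
    ∀ w, M.force (a.subst σ) w ↔ (M.pull σ).force a w := by
  induction a with
  | var i => exact fun _ => Iff.rfl
  | bot => exact fun _ => Iff.rfl
  | imp a b iha ihb =>
    intro w
    simp only [Fm.subst, force, iha, ihb]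
    rfl
  | and a b iha ihb => intro w; simp only [Fm.subst, force, iha, ihb]
  | or a b iha ihb => intro w; simp only [Fm.subst, force, iha, ihb]

theorem sound {A : Fm} (hA : ∀ σ w, M.force (A.subst σ) w) {a : Fm} (h : Thm A a) :
    ∀ w, M.force a w := by
  induction h with
  | k a b => exact fun w u _ ha u' hu' _ => M.force_mono hu' ha
  | s a b c =>
    exact fun w u _ h1 u' hu' h2 u'' hu'' h3 =>
      h1 u'' (M.trans hu' hu'') h3 u'' (M.refl _) (h2 u'' hu'' h3)
  | andl a b => exact fun w u _ h => h.1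
  | andr a b => exact fun w u _ h => h.2
  | andi a b => exact fun w u _ ha u' hu' hb => ⟨M.force_mono hu' ha, hb⟩
  | orl a b => exact fun w u _ h => Or.inl h
  | orr a b => exact fun w u _ h => Or.inr h
  | ore a b c =>
    exact fun w u _ h1 u' hu' h2 u'' hu'' h3 =>
      h3.elim (h1 u'' (M.trans hu' hu'')) (h2 u'' hu'')
  | efq a => exact fun w u _ h => h.elim
  | ax σ => exact hA σ
  | mp _ _ h1 h2 => exact fun w => h1 w w (M.refl _) (h2 w)

theorem force_conj (w : W) : ∀ l : List Fm, M.force (conj l) w ↔ ∀ a ∈ l, M.force a w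
  | [] => by simp [conj, force]
  | [a] => by simp [conj]
  | a :: b :: l => by
    have := force_conj w (b :: l)
    simp only [conj, force, this, List.forall_mem_cons]

theorem force_disj (w : W) : ∀ l : List Fm, M.force (disj l) w ↔ ∃ a ∈ l, M.force a w
  | [] => by simp [disj, force]
  | [a] => by simp [disj]
  | a :: b :: l => by
    have := force_disj w (b :: l)
    simp only [disj, force, this, List.exists_mem_cons_iff]

theorem not_force_imp {a b : Fm} {w : W} :
    ¬ M.force (.imp a b) w ↔ ∃ u, M.le w u ∧ M.force a u ∧ ¬ M.force b u := by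
  simp only [force, not_forall, exists_prop]

end Model

variable {A : Fm}

theorem thm_id (a : Fm) : Thm A (.imp a a) :=
  .mp (.mp (.s a (.imp a a) a) (.k a (.imp a a))) (.k a a)

/-- sets closed under theorems and modus ponens -/
def Closed (A : Fm) (S : Set Fm) : Prop :=
  (∀ a, Thm A a → a ∈ S) ∧ ∀ a b, a ∈ S → Fm.imp a b ∈ S → b ∈ S

theorem Closed.ded {S : Set Fm} (h : Closed A S) (b : Fm) :
    Closed A {c | Fm.imp b c ∈ S} ∧ S ⊆ {c | Fm.imp b c ∈ S} ∧ b ∈ {c | Fm.imp b c ∈ S} := by
  have h1 : S ⊆ {c | Fm.imp b c ∈ S} := fun c hc => h.2 _ _ hc (h.1 _ (.k c b))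
  refine ⟨⟨fun a ha => h1 (h.1 a ha), fun a c ha hc => ?_⟩, h1, h.1 _ (thm_id b)⟩
  exact h.2 _ _ ha (h.2 _ _ hc (h.1 _ (.s b a c)))

theorem closed_thm : Closed A {a : Fm | Thm A a} := ⟨fun _ h => h, fun _ _ h1 h2 => .mp h2 h1⟩

/-- prime theories -/
structure Prime (A : Fm) (S : Set Fm) : Prop where
  cl : Closed A S
  nb : Fm.bot ∉ S
  pr : ∀ a b, Fm.or a b ∈ S → a ∈ S ∨ b ∈ S

theorem lindenbaum {S : Set Fm} (h : Closed A S) {c : Fm} (hb : c ∉ S) :
    ∃ T, Prime A T ∧ S ⊆ T ∧ c ∉ T := by
  obtain ⟨M, hSM, hM⟩ := zorn_subset_nonempty {T : Set Fm | Closed A T ∧ c ∉ T}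
    (fun C hc hch hne => by
      refine ⟨⋃₀ C, ⟨⟨fun a ha => ?_, fun a b ha hab => ?_⟩, ?_⟩,
        fun s hs => Set.subset_sUnion_of_mem hs⟩
      · obtain ⟨s, hs⟩ := hne
        exact ⟨s, hs, (hc hs).1.1 a ha⟩
      · obtain ⟨s, hs, ha⟩ := ha
        obtain ⟨t, ht, hab⟩ := hab
        rcases hch.total hs ht with h1 | h1
        · exact ⟨t, ht, (hc ht).1.2 _ _ (h1 ha) hab⟩
        · exact ⟨s, hs, (hc hs).1.2 _ _ ha (h1 hab)⟩
      · rintro ⟨s, hs, hb⟩
        exact (hc hs).2 hb) S ⟨h, hb⟩
  have hC : Closed A M := hM.prop.1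
  have hneg : ∀ b, b ∉ M → Fm.imp b c ∈ M := by
    intro b hb
    by_contra hn
    obtain ⟨h1, h2, h3⟩ := hC.ded b
    exact hb (hM.le_of_ge ⟨h1, hn⟩ h2 h3)
  refine ⟨M, ⟨hC, fun hb => hM.prop.2 (hC.2 _ _ hb (hC.1 _ (.efq c))), fun a b hab => ?_⟩,
    hSM, hM.prop.2⟩
  by_contra hn
  rw [not_or] at hn
  exact hM.prop.2 (hC.2 _ _ hab (hC.2 _ _ (hneg b hn.2) (hC.2 _ _ (hneg a hn.1)
    (hC.1 _ (.ore a b c)))))

namespace Prime

variable {S : Set Fm} (h : Prime A S)
include h

theorem and_iff (a b : Fm) : Fm.and a b ∈ S ↔ a ∈ S ∧ b ∈ S :=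
  ⟨fun h1 => ⟨h.cl.2 _ _ h1 (h.cl.1 _ (.andl a b)), h.cl.2 _ _ h1 (h.cl.1 _ (.andr a b))⟩,
    fun h1 => h.cl.2 _ _ h1.2 (h.cl.2 _ _ h1.1 (h.cl.1 _ (.andi a b)))⟩

theorem or_iff (a b : Fm) : Fm.or a b ∈ S ↔ a ∈ S ∨ b ∈ S :=
  ⟨h.pr a b, fun h1 => h1.elim (fun h2 => h.cl.2 _ _ h2 (h.cl.1 _ (.orl a b)))
    (fun h2 => h.cl.2 _ _ h2 (h.cl.1 _ (.orr a b)))⟩

theorem imp_iff (a b : Fm) :
    Fm.imp a b ∈ S ↔ ∀ T, Prime A T → S ⊆ T → a ∈ T → b ∈ T := by
  refine ⟨fun h1 T hT hST ha => hT.cl.2 _ _ ha (hST h1), fun h1 => ?_⟩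
  by_contra hn
  obtain ⟨h2, h3, h4⟩ := h.cl.ded a
  obtain ⟨T, hT, h5, h6⟩ := lindenbaum h2 (c := b) hn
  exact h6 (h1 T hT (h3.trans h5) (h5 h4))

end Prime

/-- the canonical model of `L_A` -/
def canon (A : Fm) : Model {S : Set Fm // Prime A S} where
  le x y := x.1 ⊆ y.1
  v i x := Fm.var i ∈ x.1
  refl _ := subset_rfl
  trans h1 h2 := h1.trans h2
  mono h1 h2 := h1 h2

theorem canon_force (a : Fm) : ∀ x, (canon A).force a x ↔ a ∈ x.1 := by
  induction a with
  | var i => exact fun _ => Iff.rfl
  | bot => exact fun x => ⟨False.elim, x.2.nb⟩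
  | imp a b iha ihb =>
    intro x
    simp only [Model.force, iha, ihb, x.2.imp_iff]
    exact ⟨fun h T hT => h ⟨T, hT⟩, fun h T => h T.1 T.2⟩
  | and a b iha ihb => intro x; simp only [Model.force, iha, ihb, x.2.and_iff]
  | or a b iha ihb => intro x; simp only [Model.force, iha, ihb, x.2.or_iff]

theorem canon_thm {a : Fm} (h : Thm A a) (x) : (canon A).force a x :=
  (canon_force a x).2 (x.2.cl.1 a h)

theorem complete {a : Fm} (h : ∀ x, (canon A).force a x) : Thm A a := by
  by_contra hn
  obtain ⟨T, hT, -, h2⟩ := lindenbaum (closed_thm (A := A)) (c := a) hn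
  exact h2 ((canon_force a ⟨T, hT⟩).1 (h _))

section ext

variable {W : Type} (M : Model W) (x : W) (K : W → Prop)

/-- order of the model with a tight predecessor `inr true` of the points in `K` and a new root
`inr false` below it and `x` -/
def extLe : W ⊕ Bool → W ⊕ Bool → Prop
  | .inl u, .inl w => M.le u w
  | .inl _, .inr _ => False
  | .inr true, .inl w => ∃ k, K k ∧ M.le k w
  | .inr true, .inr b => b = true
  | .inr false, .inl w => M.le x w
  | .inr false, .inr _ => True

/-- the extended model -/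
def ext (hK : ∀ k, K k → M.le x k) : Model (W ⊕ Bool) where
  le := extLe M x K
  v i y := match y with
    | .inl u => M.v i u
    | .inr _ => False
  refl y := by
    rcases y with u | _ | _
    · exact M.refl u
    · trivial
    · rfl
  trans := by
    rintro (u | _ | _) (w | _ | _) (z | _ | _) h1 h2 <;> simp only [extLe] at h1 h2 ⊢ <;>
      first
        | exact M.trans h1 h2
        | exact h2
        | exact h1
        | exact h1.elim fun k h3 => ⟨k, h3.1, M.trans h3.2 h2⟩
        | exact h2.elim fun k h3 => M.trans (hK k h3.1) h3.2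
        | exact Bool.noConfusion h1
  mono := by
    rintro i (u | _ | _) (w | _ | _) h1 h2 <;> simp only [extLe] at h1 h2 ⊢
    exact M.mono h1 h2

theorem ext_force (hK : ∀ k, K k → M.le x k) (a : Fm) :
    ∀ u, (ext M x K hK).force a (.inl u) ↔ M.force a u := by
  induction a with
  | var i => exact fun _ => Iff.rfl
  | bot => exact fun _ => Iff.rfl
  | imp a b iha ihb =>
    intro u
    constructor
    · intro h w hw ha
      exact (ihb w).1 (h (.inl w) hw ((iha w).2 ha))
    · rintro h (w | w) hw ha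
      · exact (ihb w).2 (h w hw ((iha w).1 ha))
      · exact hw.elim
  | and a b iha ihb => intro u; simp only [Model.force, iha, ihb]
  | or a b iha ihb => intro u; simp only [Model.force, iha, ihb]

end ext

/-- A logic that is equivalent to a disjunction of negations admits Visser's rules. -/
theorem admits_of_negdisj (l : List Fm) (hR : Thm A (disj (l.map Fm.neg)))
    (hA : ∀ (W : Type) (M : Model W) (w : W), M.force (disj (l.map Fm.neg)) w → M.force A w) :
    AdmitsVisser A := by
  intro n _ σ hp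
  by_contra hc
  obtain ⟨x, hx⟩ : ∃ x, ¬ (canon A).force ((visConc n).subst σ) x := by
    by_contra hn
    exact hc (complete fun x => by
      by_contra h
      exact hn ⟨x, h⟩)
  set M := canon A with hM
  have hx1 : ∀ j ∈ List.range' 1 (n + 2), ∃ k, M.le x k ∧ M.force ((visC n).subst σ) k ∧
      ¬ M.force ((vp j).subst σ) k := by
    intro j hj
    rw [← M.not_force_imp]
    intro h
    apply hx
    left
    rw [subst_disj, M.force_disj]
    exact ⟨_, List.mem_map_of_mem (List.mem_map_of_mem hj), h⟩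
  have hx2 : ¬ M.force (vr.subst σ) x := fun h => hx (Or.inr h)
  let K : _ → Prop := fun k => M.le x k ∧ M.force ((visC n).subst σ) k
  have hK : ∀ k, K k → M.le x k := fun k hk => hk.1
  let N := ext M x K hK
  have hup : ∀ y, N.le (.inr false) y → ∃ u, M.le x u ∧ N.le y (.inl u) := by
    rintro (u | _ | _) h
    · exact ⟨u, h, M.refl u⟩
    · exact ⟨x, M.refl x, M.refl x⟩
    · obtain ⟨k, h1, h2, -⟩ := hx1 1 (by simp)
      exact ⟨k, h1, k, ⟨h1, h2⟩, M.refl k⟩
  have hroot : ∀ τ, N.force (A.subst τ) (.inr false) := by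
    intro τ
    rw [N.force_subst]
    apply hA
    rw [← N.force_subst]
    have h1 := canon_thm (hR.subst τ) x
    rw [subst_disj, Model.force_disj] at h1 ⊢
    obtain ⟨a, ha, h2⟩ := h1
    refine ⟨a, ha, ?_⟩
    simp only [List.map_map, List.mem_map, Function.comp_apply] at ha
    obtain ⟨b, -, rfl⟩ := ha
    intro y hy h3
    obtain ⟨u, h4, h5⟩ := hup y hy
    exact h2 u h4 ((ext_force M x K hK _ u).1 (N.force_mono h5 h3))
  have hall : ∀ τ y, N.force (A.subst τ) y := by
    rintro τ (u | _ | _)
    · exact (ext_force M x K hK _ u).2 (canon_thm (.ax τ) u)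
    · exact hroot τ
    · exact N.force_mono (x := .inr false) trivial (hroot τ)
  have hnp : ∀ j ∈ List.range' 1 (n + 2), ¬ N.force ((vp j).subst σ) (.inr true) := by
    intro j hj h
    obtain ⟨k, h1, h2, h3⟩ := hx1 j hj
    exact h3 ((ext_force M x K hK _ k).1
      (N.force_mono (x := .inr true) (y := .inl k) ⟨k, ⟨h1, h2⟩, M.refl k⟩ h))
  rcases N.sound hall hp (.inr false) with h | h
  · have hC : N.force ((visC n).subst σ) (.inr true) := by
      unfold visC
      rw [subst_conj, N.force_conj]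
      intro a ha
      simp only [List.map_map, List.mem_map, Function.comp_apply] at ha
      obtain ⟨i, hi, rfl⟩ := ha
      rintro (u | _ | _) hu h3
      · obtain ⟨k, hk, h4⟩ := hu
        have h5 := M.force_mono h4 hk.2
        unfold visC at h5
        rw [subst_conj, M.force_conj] at h5
        have h6 := h5 _ (List.mem_map_of_mem (List.mem_map_of_mem hi))
        exact (ext_force M x K hK _ u).2 (h6 u (M.refl u) ((ext_force M x K hK _ u).1 h3))
      · exact Bool.noConfusion hu
      · refine absurd h3 (hnp i ?_)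
        simp only [List.mem_range'_1] at hi ⊢
        omega
    rcases h (.inr true) trivial hC with h1 | h1
    · exact hnp (n + 1) (by simp only [List.mem_range'_1]; omega) h1
    · exact hnp (n + 2) (by simp only [List.mem_range'_1]; omega) h1
  · exact hx2 ((ext_force M x K hK _ x).1 (N.force_mono (x := .inr false) (y := .inl x) (M.refl x) h))

end Pool.Agent.H616Z.Vis
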