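import Mathlib

/-!
Intermediate logics `IPC + A` and Visser's rules.
-/

set_option autoImplicit false

namespace Pool.Agent.H616Z.Vis

/-- Formulas built from countably many variables with `→, ∧, ∨, ⊥`. -/
inductive Fm : Type
  | var (i : ℕ) : Fm
  | bot : Fm
  | imp (a b : Fm) : Fm
  | and (a b : Fm) : Fm
  | or (a b : Fm) : Fm

/-- Simultaneous substitution of formulas for the variables. -/
def Fm.subst (σ : ℕ → Fm) : Fm → Fm
  | .var i => σ i
  | .bot => .bot
  | .imp a b => .imp (a.subst σ) (b.subst σ)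
  | .and a b => .and (a.subst σ) (b.subst σ)
  | .or a b => .or (a.subst σ) (b.subst σ)

/-- The Gödel number of a formula. -/
def Fm.code : Fm → ℕ
  | .bot => 0
  | .var i => 4 * i + 1
  | .imp a b => 4 * Nat.pair a.code b.code + 2
  | .and a b => 4 * Nat.pair a.code b.code + 3
  | .or a b => 4 * Nat.pair a.code b.code + 4

/-- The logic `L_A`: the least set of formulas that contains the axioms of `IPC` (the usual nine
schemes) and all substitution instances of `A`, and is closed under modus ponens. -/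
inductive Thm (A : Fm) : Fm → Prop
  | k (a b : Fm) : Thm A (.imp a (.imp b a))
  | s (a b c : Fm) : Thm A (.imp (.imp a (.imp b c)) (.imp (.imp a b) (.imp a c)))
  | andl (a b : Fm) : Thm A (.imp (.and a b) a)
  | andr (a b : Fm) : Thm A (.imp (.and a b) b)
  | andi (a b : Fm) : Thm A (.imp a (.imp b (.and a b)))
  | orl (a b : Fm) : Thm A (.imp a (.or a b))
  | orr (a b : Fm) : Thm A (.imp b (.or a b))
  | ore (a b c : Fm) : Thm A (.imp (.imp a c) (.imp (.imp b c) (.imp (.or a b) c)))
  | efq (a : Fm) : Thm A (.imp .bot a)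
  | ax (σ : ℕ → Fm) : Thm A (A.subst σ)
  | mp {a b : Fm} : Thm A (.imp a b) → Thm A a → Thm A b

/-- The rule `b / c` is admissible in `L_A`. -/
def Admissible (A b c : Fm) : Prop := ∀ σ : ℕ → Fm, Thm A (b.subst σ) → Thm A (c.subst σ)

/-- The conjunction of a list of formulas (`⊥ → ⊥` for the empty list). -/
def conj : List Fm → Fm
  | [] => .imp .bot .bot
  | [a] => a
  | a :: b :: l => .and a (conj (b :: l))

/-- The disjunction of a list of formulas (`⊥` for the empty list). -/
def disj : List Fm → Fm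
  | [] => .bot
  | [a] => a
  | a :: b :: l => .or a (disj (b :: l))

/-- The variable `p_i`. -/
def vp (i : ℕ) : Fm := .var (2 * i + 1)

/-- The variable `q_i`. -/
def vq (i : ℕ) : Fm := .var (2 * i + 2)

/-- The variable `r`. -/
def vr : Fm := .var 0

/-- The formula `⋀_{i=1}^n (p_i → q_i)`. -/
def visC (n : ℕ) : Fm := conj ((List.range' 1 n).map fun i => .imp (vp i) (vq i))

/-- The premise `(⋀_{i=1}^n (p_i → q_i) → p_{n+1} ∨ p_{n+2}) ∨ r` of Visser's rule `V_n`. -/
def visPrem (n : ℕ) : Fm := .or (.imp (visC n) (.or (vp (n + 1)) (vp (n + 2)))) vr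

/-- The conclusion `⋁_{j=1}^{n+2} (⋀_{i=1}^n (p_i → q_i) → p_j) ∨ r` of Visser's rule `V_n`. -/
def visConc (n : ℕ) : Fm :=
  .or (disj ((List.range' 1 (n + 2)).map fun j => .imp (visC n) (vp j))) vr

/-- The logic `L_A` admits all of Visser's rules `V_n`, `n ≥ 1`. -/
def AdmitsVisser (A : Fm) : Prop := ∀ n : ℕ, 1 ≤ n → Admissible A (visPrem n) (visConc n)

end Pool.Agent.H616Z.Vis
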