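import Pool.Agent.H616Z.Vis.Main

/-!
Computability of the reduction.
-/

set_option autoImplicit false

namespace Pool.Agent.H616Z.Vis

open Pool.Agent.H502.PcSrc

theorem prim_node {α : Type} [Primcodable α] (t : ℕ) {f g : α → ℕ} (hf : Primrec f)
    (hg : Primrec g) : Primrec fun a => 4 * Nat.pair (f a) (g a) + t :=
  Primrec.nat_add.comp (Primrec.nat_mul.comp (Primrec.const 4) (Primrec₂.natPair.comp hf hg))
    (Primrec.const t)

theorem comp_node (t : ℕ) {f g : ℕ → ℕ} (hf : Computable f) (hg : Computable g) :
    Computable fun a => 4 * Nat.pair (f a) (g a) + t :=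
  (prim_node t Primrec.fst Primrec.snd).to_comp.comp (hf.pair hg)

/-- the step on codes -/
def stepC (u v : ℕ) (x : ℕ × ℕ × ℕ) : ℕ × ℕ × ℕ :=
  (x.2.1, x.2.2, 4 * Nat.pair (4 * Nat.pair u x.2.2 + 3)
    (4 * Nat.pair x.2.1 (4 * Nat.pair x.1 v + 4) + 4) + 2)

theorem prim_stepC (u v : ℕ) : Primrec (stepC u v) :=
  (Primrec.fst.comp Primrec.snd).pair ((Primrec.snd.comp Primrec.snd).pair
    (prim_node 2 (prim_node 3 (Primrec.const u) (Primrec.snd.comp Primrec.snd))
      (prim_node 4 (Primrec.fst.comp Primrec.snd) (prim_node 4 Primrec.fst (Primrec.const v)))))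

theorem iter_stepC (i : I) (a b c : Fm) (k : ℕ) :
    (stepC (Fm.and (NB (nx i) 0) (NB (nx i) 1)).code (Fm.and (NB i 0) (NB i 1)).code)^[k]
      (a.code, b.code, c.code) =
      ((seqF i a b c k).code, (seqF i a b c (k + 1)).code, (seqF i a b c (k + 2)).code) := by
  induction k with
  | zero => rfl
  | succ k ih =>
    rw [Function.iterate_succ_apply', ih]
    simp only [stepC, seqF, stepF, Fm.code]

theorem prim_seq (i : I) (a b c : Fm) : Primrec fun k => (seqF i a b c k).code := by
  have h := Primrec.nat_iterate (f := fun k : ℕ => k) (g := fun _ => (a.code, b.code, c.code))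
    (h := fun _ => stepC (Fm.and (NB (nx i) 0) (NB (nx i) 1)).code
      (Fm.and (NB i 0) (NB i 1)).code) Primrec.id (Primrec.const _)
    ((prim_stepC _ _).comp Primrec.snd).to₂
  refine (Primrec.fst.comp h).of_eq fun k => ?_
  rw [iter_stepC]

theorem comp_conj {α : Type} (φ : α → ℕ → Fm) (h : ∀ a, Computable fun n => (φ a n).code) :
    ∀ l : List α, Computable fun n => (conj (l.map fun a => φ a n)).code
  | [] => Computable.const _
  | [a] => h a
  | a :: b :: l => comp_node 3 (h a) (comp_conj φ h (b :: l))

theorem comp_disj {α : Type} (φ : α → ℕ → Fm) (h : ∀ a, Computable fun n => (φ a n).code) :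
    ∀ l : List α, Computable fun n => (disj (l.map fun a => φ a n)).code
  | [] => Computable.const _
  | [a] => h a
  | a :: b :: l => comp_node 4 (h a) (comp_disj φ h (b :: l))

theorem comp_EE (kk : ℕ → I → ℕ) (hk : ∀ i, Computable fun n => kk n i) (u v : Fm) :
    Computable fun n => (Fm.and u (.imp (EE NW (kk n) .bot) v)).code := by
  have h : ∀ i t, Computable fun n => (NW i (kk n i + t)).code := fun i t =>
    (prim_seq i _ _ _).to_comp.comp
      ((Primrec.nat_add.comp Primrec.id (Primrec.const t)).to_comp.comp (hk i))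
  exact comp_node 3 (Computable.const _) (comp_node 2 (comp_node 2
    (comp_conj (fun i n => .and (NW i (kk n i + 1)) (NW i (kk n i + 2)))
      (fun i => comp_node 3 (h i 1) (h i 2)) allI)
    (comp_node 4 (comp_disj (fun i n => NW i (kk n i)) (fun i => h i 0) allI)
      (Computable.const _))) (Computable.const _))

theorem main : ¬ ∃ f : ℕ → Bool, Computable f ∧
    ∀ A : Fm, f A.code = true ↔ AdmitsVisser A := by
  rintro ⟨f, hf, h⟩
  obtain ⟨Q, hQ, M, q0, N, -, hN, hn⟩ := exists_sys
  obtain ⟨enc, henc⟩ := Countable.exists_injective_nat (Option (RS M))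
  have : Fintype (RS M × Bool) := Fintype.ofFinite _
  let L : List (RS M × Bool) := Finset.univ.toList
  have hL : ∀ a, a ∈ L := fun a => Finset.mem_toList.2 (Finset.mem_univ a)
  let x : ℕ → Option (RS M) × (Bool × Bool → ℤ) := fun n =>
    (some (.d1 q0 (z0 M)), v4 (ini (N n) true) (ini (N n) false) 0 0)
  have hx : ∀ n j, 0 ≤ (x n).2 j := by
    rintro n ⟨_ | _, _ | _⟩ <;> simp [x, v4]
  have hk : ∀ i, Computable fun n => cpos enc (x n) i := by
    rintro (_ | ⟨_ | _, _ | _⟩)
    · exact Computable.const (enc (some (.d1 q0 (z0 M))) + 9)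
    · exact (Computable.const 9).of_eq fun n => by simp [cpos, x, v4, ini]
    · exact ((Primrec.nat_add.comp Primrec.id (Primrec.const 9)).to_comp.comp hN).of_eq
        fun n => by simp [cpos, x, v4, ini]
    · exact (Computable.const 9).of_eq fun n => by simp [cpos, x, v4]
    · exact (Computable.const 9).of_eq fun n => by simp [cpos, x, v4]
  have hc : Computable fun n => (AX (dm M q0 0) enc L (x n)).code :=
    comp_EE (fun n => cpos enc (x n)) hk _ _
  apply hn
  refine ComputablePred.computable_iff.2 ⟨fun n => f (AX (dm M q0 0) enc L (x n)).code,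
    hf.comp hc, funext fun n => propext ?_⟩
  rw [h, ← dm_halts_iff M q0 0 q0 (ini (N n))]
  constructor
  · exact admits_of_halts _ enc L hL (x n) (hx n)
  · intro ha
    by_contra hh
    exact not_admits _ enc henc L (x n) (hx n) hh ha

theorem code_injective : Function.Injective Fm.code := by
  intro a
  induction a with
  | var i => intro b h; cases b <;> simp only [Fm.code] at h <;> first | omega | (congr 1; omega)
  | bot => intro b h; cases b <;> simp only [Fm.code] at h <;> first | omega | rfl
  | imp a b iha ihb =>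
    intro c h
    cases c <;> simp only [Fm.code] at h <;> try omega
    have := Nat.pair_eq_pair.1 (Nat.eq_of_mul_eq_mul_left (by omega) (Nat.add_right_cancel h))
    rw [iha this.1, ihb this.2]
  | and a b iha ihb =>
    intro c h
    cases c <;> simp only [Fm.code] at h <;> try omega
    have := Nat.pair_eq_pair.1 (Nat.eq_of_mul_eq_mul_left (by omega) (Nat.add_right_cancel h))
    rw [iha this.1, ihb this.2]
  | or a b iha ihb =>
    intro c h
    cases c <;> simp only [Fm.code] at h <;> try omega
    have := Nat.pair_eq_pair.1 (Nat.eq_of_mul_eq_mul_left (by omega) (Nat.add_right_cancel h))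
    rw [iha this.1, ihb this.2]

end Pool.Agent.H616Z.Vis
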