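import Pool.Agent.H616Z.Vis.Basic

/-!
The symmetric frame with ladders and the formulas describing its points.
-/

set_option autoImplicit false

namespace Pool.Agent.H616Z.Vis

/-- ladder indices -/
abbrev I : Type := Option (Bool × Bool)

/-- another ladder -/
def nx : I → I
  | none => some (true, true)
  | some _ => none

theorem nx_ne (i : I) : nx i ≠ i := by
  rcases i with _ | r <;> simp [nx]

/-- all ladders -/
def allI : List I :=
  [none, some (false, false), some (false, true), some (true, false), some (true, true)]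

theorem mem_allI (i : I) : i ∈ allI := by
  rcases i with _ | ⟨_ | _, _ | _⟩ <;> simp [allI]

/-- the sizes seen by the ladder points -/
def Kl : I → ℕ → List ℕ
  | none, 0 => [2, 3]
  | none, 1 => [2, 4]
  | none, 2 => [2, 3, 4]
  | some (false, false), 0 => [2, 5]
  | some (false, false), 1 => [2, 6]
  | some (false, false), 2 => [2, 5, 6]
  | some (false, true), 0 => [3, 4]
  | some (false, true), 1 => [3, 5]
  | some (false, true), 2 => [3, 4, 5]
  | some (true, false), 0 => [3, 6]
  | some (true, false), 1 => [4, 5]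
  | some (true, false), 2 => [3, 4, 6]
  | some (true, true), 0 => [4, 6]
  | some (true, true), 1 => [5, 6]
  | some (true, true), 2 => [4, 5, 6]
  | _, _ + 3 => [2, 3, 4, 5, 6]

/-- all sizes -/
def GG : List ℕ := [2, 3, 4, 5, 6]

theorem Kl_big (i : I) (m : ℕ) : Kl i (m + 3) = GG := by
  rcases i with _ | ⟨_ | _, _ | _⟩ <;> rfl

theorem Kl_sub (i : I) (m : ℕ) : ∀ g ∈ Kl i m, g ∈ GG := by
  rcases m with _ | _ | _ | m
  · rcases i with _ | ⟨_ | _, _ | _⟩ <;> decide
  · rcases i with _ | ⟨_ | _, _ | _⟩ <;> decide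
  · rcases i with _ | ⟨_ | _, _ | _⟩ <;> decide
  · rw [Kl_big]; exact fun _ h => h

theorem Kl_mono (i : I) {m m' : ℕ} (h : m' + 2 ≤ m) : ∀ g ∈ Kl i m', g ∈ Kl i m := by
  rcases m with _ | _ | _ | m
  · omega
  · omega
  · obtain rfl : m' = 0 := by omega
    rcases i with _ | ⟨_ | _, _ | _⟩ <;> decide
  · rw [Kl_big]; exact Kl_sub i m'

theorem Kl_two (i : I) (m : ℕ) : ∃ g1 ∈ Kl i m, ∃ g2 ∈ Kl i m, g1 ≠ g2 := by
  rcases m with _ | _ | _ | m
  · rcases i with _ | ⟨_ | _, _ | _⟩ <;> decide
  · rcases i with _ | ⟨_ | _, _ | _⟩ <;> decide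
  · rcases i with _ | ⟨_ | _, _ | _⟩ <;> decide
  · rw [Kl_big]; decide

theorem Kl_miss (i : I) {m : ℕ} (hm : m ≤ 2) : ∃ g ∈ GG, g ∉ Kl i m := by
  interval_cases m <;> rcases i with _ | ⟨_ | _, _ | _⟩ <;> decide

theorem Kl_inj0 : ∀ (i i' : I) (m m' : Fin 3), (∀ g ∈ GG, g ∈ Kl i' m' ↔ g ∈ Kl i m) →
    i' = i ∧ m' = m := by
  decide

theorem Kl_inj {i i' : I} {m m' : ℕ} (hm : m ≤ 2) (h : ∀ g ∈ GG, g ∈ Kl i' m' ↔ g ∈ Kl i m) :
    i' = i ∧ m' = m := by
  by_cases hm' : m' ≤ 2
  · have := Kl_inj0 i i' ⟨m, by omega⟩ ⟨m', by omega⟩ h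
    exact ⟨this.1, congrArg Fin.val this.2⟩
  · obtain ⟨g, h1, h2⟩ := Kl_miss i hm
    obtain ⟨k, rfl⟩ : ∃ k, m' = k + 3 := ⟨m' - 3, by omega⟩
    rw [Kl_big] at h
    exact absurd ((h g h1).1 h1) h2

theorem GG_range {g : ℕ} (h : g ∈ GG) : 2 ≤ g ∧ g ≤ 6 := by
  simp only [GG, List.mem_cons, List.not_mem_nil, or_false] at h
  omega

/-- mutually exclusive atoms -/
def atm (j : Fin 8) : Fm :=
  .and (.var j.val)
    (conj (((List.finRange 8).filter (· ≠ j)).map fun k : Fin 8 => Fm.neg (.var k.val)))

/-- negated atoms -/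
def na (j : Fin 8) : Fm := (atm j).neg

/-- at most seven final points -/
def RR : Fm := disj (((List.finRange 8).map atm).map Fm.neg)

/-- conjunction of negated atoms -/
def hiC (g : ℕ) : Fm := conj (((List.finRange 8).filter fun j => g ≤ j.val).map na)

/-- disjunction of negated atoms -/
def hiD (g : ℕ) : Fm := disj (((List.finRange 8).filter fun j => g ≤ j.val).map na)

/-- disjunction of negated atoms -/
def loD (g : ℕ) : Fm := disj (((List.finRange 8).filter fun j => j.val < g).map na)

/-- refuted at the points that see the point above the first `g` final points -/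
def NT (g : ℕ) : Fm := .imp (hiC g) (loD g)

/-- the starting points of the ladders -/
def NB (i : I) (m : ℕ) : Fm :=
  .imp (.and (na 7) (conj ((GG.filter (· ∉ Kl i m)).map NT))) (disj ((Kl i m).map NT))

/-- one step along a ladder -/
def stepF (i : I) (x0 x1 x2 : Fm) : Fm :=
  .imp (.and (.and (NB (nx i) 0) (NB (nx i) 1)) x2) (.or x1 (.or x0 (.and (NB i 0) (NB i 1))))

/-- the ladder sequence -/
def seqF (i : I) (a b c : Fm) : ℕ → Fm
  | 0 => a
  | 1 => b
  | 2 => c
  | k + 3 => stepF i (seqF i a b c k) (seqF i a b c (k + 1)) (seqF i a b c (k + 2))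

/-- formulas of the ladder points -/
def NW (i : I) : ℕ → Fm := seqF i (NB i 0) (NB i 1) (NB i 2)

/-- formulas of the configurations -/
def EE (g : I → ℕ → Fm) (kk : I → ℕ) (ex : Fm) : Fm :=
  .imp (conj (allI.map fun i => .and (g i (kk i + 1)) (g i (kk i + 2))))
    (.or (disj (allI.map fun i => g i (kk i))) ex)

/-- sets of final points -/
abbrev TS : Type := {S : Finset (Fin 8) // S.Nonempty ∧ S.card ≤ 6}

/-- points of the frame -/
inductive Pt : Type
  | t (S : TS) : Pt
  | w (d : Fin 8) (i : I) (m : ℕ) : Pt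
  | e (d : Fin 8) (k : ℕ) : Pt
  | root : Pt

/-- the order of a ladder -/
def lad (m m' : ℕ) : Prop := m' = m ∨ m' + 2 ≤ m

/-- the order of the frame -/
def ple (pos : ℕ → I → ℕ) : Pt → Pt → Prop
  | .root, _ => True
  | .t S, .t S' => S' = S ∨ (S'.1.card = 1 ∧ S'.1 ⊆ S.1)
  | .t _, .w _ _ _ => False
  | .t _, .e _ _ => False
  | .t _, .root => False
  | .w d i m, .t S => d ∉ S.1 ∧ (S.1.card = 1 ∨ S.1.card ∈ Kl i m)
  | .w d i m, .w d' i' m' => d' = d ∧ i' = i ∧ lad m m'
  | .w _ _ _, .e _ _ => False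
  | .w _ _ _, .root => False
  | .e d _, .t S => d ∉ S.1
  | .e d k, .w d' i m => d' = d ∧ lad (pos k i) m
  | .e d k, .e d' k' => d' = d ∧ k' = k
  | .e _ _, .root => False

variable {pos : ℕ → I → ℕ}

theorem lad_trans {a b c : ℕ} (h1 : lad a b) (h2 : lad b c) : lad a c := by
  unfold lad at *; omega

theorem ple_refl (x : Pt) : ple pos x x := by
  cases x <;> simp [ple, lad]

theorem card_one_sub {S S' : Finset (Fin 8)} (h1 : S.card = 1) (h2 : S'.Nonempty) (h : S' ⊆ S) :
    S' = S :=
  Finset.eq_of_subset_of_card_le h (by rw [h1]; exact h2.card_pos)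

theorem ple_trans {x y z : Pt} (h1 : ple pos x y) (h2 : ple pos y z) : ple pos x z := by
  cases x with
  | root => trivial
  | t S =>
    cases y with
    | t S' =>
      cases z with
      | t S'' =>
        rcases h1 with rfl | h1
        · exact h2
        · rcases h2 with rfl | h2
          · exact Or.inr h1
          · exact Or.inr ⟨h2.1, h2.2.trans h1.2⟩
      | _ => exact h2.elim
    | _ => exact h1.elim
  | w d i m =>
    cases y with
    | t S' =>
      cases z with
      | t S'' =>
        rcases h2 with rfl | h2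
        · exact h1
        · exact ⟨fun h => h1.1 (h2.2 h), Or.inl h2.1⟩
      | _ => exact h2.elim
    | w d' i' m' =>
      obtain ⟨rfl, rfl, h1⟩ := h1
      cases z with
      | t S =>
        refine ⟨h2.1, h2.2.imp id fun h => ?_⟩
        rcases h1 with rfl | h1
        · exact h
        · exact Kl_mono _ h1 _ h
      | w d'' i'' m'' => exact ⟨h2.1, h2.2.1, lad_trans h1 h2.2.2⟩
      | _ => exact h2.elim
    | _ => exact h1.elim
  | e d k =>
    cases y with
    | t S' =>
      cases z with
      | t S'' =>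
        rcases h2 with rfl | h2
        · exact h1
        · exact fun h => h1 (h2.2 h)
      | _ => exact h2.elim
    | w d' i' m' =>
      obtain ⟨rfl, h1⟩ := h1
      cases z with
      | t S => exact h2.1
      | w d'' i'' m'' =>
        obtain ⟨rfl, rfl, h2⟩ := h2
        exact ⟨rfl, lad_trans h1 h2⟩
      | _ => exact h2.elim
    | e d' k' =>
      obtain ⟨rfl, rfl⟩ := h1
      exact h2
    | root => exact h1.elim

/-- final points -/
def top (s : Fin 8) : Pt := .t ⟨{s}, by simp⟩

/-- the final points seen -/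
def tops : Pt → Finset (Fin 8)
  | .t S => S.1
  | .w d _ _ => Finset.univ.erase d
  | .e d _ => Finset.univ.erase d
  | .root => Finset.univ

theorem ple_top (y : Pt) (s : Fin 8) : ple pos y (top s) ↔ s ∈ tops y := by
  cases y with
  | t S =>
    simp only [top, ple, tops, Finset.card_singleton, Finset.singleton_subset_iff, true_and]
    constructor
    · rintro (rfl | h)
      · simp
      · exact h
    · exact Or.inr
  | w d i m => simp [top, ple, tops, eq_comm]
  | e d k => simp [top, ple, tops, eq_comm]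
  | root => simp [ple, tops]

theorem tops_nonempty (y : Pt) : (tops y).Nonempty := by
  have : ∀ d : Fin 8, (Finset.univ.erase d).Nonempty := by decide
  cases y with
  | t S => exact S.2.1
  | w d i m => exact this d
  | e d k => exact this d
  | root => exact Finset.univ_nonempty

theorem top_max {s : Fin 8} {y : Pt} (h : ple pos (top s) y) : y = top s := by
  cases y with
  | t S =>
    rcases h with rfl | h
    · rfl
    · exact congrArg Pt.t (Subtype.ext (card_one_sub (by simp) S.2.1 h.2))
  | _ => exact h.elim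

theorem tops_card {y : Pt} (h : (tops y).card ≤ 6) : ∃ S, y = .t S := by
  cases y with
  | t S => exact ⟨S, rfl⟩
  | w d i m => simp [tops] at h
  | e d k => simp [tops] at h
  | root => simp [tops] at h

theorem exists_miss {y : Pt} (h : y ≠ .root) : ∃ s, s ∉ tops y := by
  cases y with
  | t S =>
    by_contra hn
    have h1 : S.1 = Finset.univ := Finset.eq_univ_of_forall fun s => by
      by_contra h2
      exact hn ⟨s, h2⟩
    have := S.2.2
    rw [h1] at this
    simp at this
  | w d i m => exact ⟨d, by simp [tops]⟩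
  | e d k => exact ⟨d, by simp [tops]⟩
  | root => exact absurd rfl h

theorem atm_excl {W : Type} (M : Model W) {y : W} {j k : Fin 8} (h1 : M.force (atm j) y)
    (h2 : M.force (atm k) y) : j = k := by
  by_contra hn
  have h3 := h2.2
  rw [M.force_conj] at h3
  exact h3 (Fm.neg (.var j.val)) (List.mem_map.2 ⟨j, by simp [hn], rfl⟩) y (M.refl y) h1.1

theorem force_RR {W : Type} (M : Model W) (y : W) : M.force RR y ↔ ∃ j, M.force (na j) y := by
  unfold RR
  rw [M.force_disj]
  simp only [List.map_map, List.mem_map, List.mem_finRange, true_and, Function.comp_apply,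
    exists_exists_eq_and]
  rfl

theorem force_hiC {W : Type} (M : Model W) (g : ℕ) (y : W) :
    M.force (hiC g) y ↔ ∀ j : Fin 8, g ≤ j.val → M.force (na j) y := by
  unfold hiC
  rw [M.force_conj]
  simp

theorem force_hiD {W : Type} (M : Model W) (g : ℕ) (y : W) :
    M.force (hiD g) y ↔ ∃ j : Fin 8, g ≤ j.val ∧ M.force (na j) y := by
  unfold hiD
  rw [M.force_disj]
  simp

theorem force_loD {W : Type} (M : Model W) (g : ℕ) (y : W) :
    M.force (loD g) y ↔ ∃ j : Fin 8, j.val < g ∧ M.force (na j) y := by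
  unfold loD
  rw [M.force_disj]
  simp

section rigid

variable {M : Model Pt} (hM : M.le = ple pos)
include hM

theorem exists_perm (hr : ¬ M.force RR .root) :
    ∃ σ : Fin 8 ≃ Fin 8, ∀ j y, M.force (na j) y ↔ σ j ∉ tops y := by
  have h1 : ∀ j y, M.force (atm j) y → ∃ s, ple pos y (top s) ∧ M.force (atm j) (top s) := by
    intro j y h
    obtain ⟨s, hs⟩ := tops_nonempty y
    have h2 := (ple_top (pos := pos) y s).2 hs
    exact ⟨s, h2, M.force_mono (hM ▸ h2) h⟩
  have h2 : ∀ j, ∃ s, M.force (atm j) (top s) := by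
    intro j
    have h3 : ¬ M.force (na j) .root := fun h => hr ((force_RR M _).2 ⟨j, h⟩)
    obtain ⟨u, -, h4, -⟩ := M.not_force_imp.1 h3
    obtain ⟨s, -, hs⟩ := h1 j u h4
    exact ⟨s, hs⟩
  choose f hf using h2
  have hinj : Function.Injective f := fun j k h => atm_excl M (hf j) (h ▸ hf k)
  refine ⟨Equiv.ofBijective f (Finite.injective_iff_bijective.1 hinj), fun j y => ?_⟩
  rw [Equiv.ofBijective_apply, ← ple_top (pos := pos)]
  constructor
  · intro h h3
    exact h _ (hM ▸ h3) (hf j)
  · intro h u hu h3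
    obtain ⟨s, h4, h5⟩ := h1 j u h3
    obtain ⟨k, rfl⟩ := (Finite.injective_iff_surjective.1 hinj) s
    obtain rfl := atm_excl M h5 (hf k)
    exact h (ple_trans (hM ▸ hu) h4)

end rigid

end Pool.Agent.H616Z.Vis
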