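import Pool.Agent.H616Z.Vis.Rigid
import Pool.Agent.H502.PcReg

/-!
Simulation of a register machine.
-/

set_option autoImplicit false

namespace Pool.Agent.H616Z.Vis

open Pool.Agent.H502.PcSrc

section syn

variable {τ : ℕ → Fm} (hτ : ∀ j : Fin 8, τ j.val = .var j.val)
include hτ

theorem subst_atm (j : Fin 8) : (atm j).subst τ = atm j := by
  simp only [atm, Fm.subst, subst_conj, List.map_map, Function.comp_def, hτ]

theorem subst_na (j : Fin 8) : (na j).subst τ = na j := by
  simp only [na, Fm.subst, subst_atm hτ]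

theorem subst_RR : RR.subst τ = RR := by
  simp only [RR, subst_disj, List.map_map, Function.comp_def, Fm.subst, subst_atm hτ]

theorem subst_NT (g : ℕ) : (NT g).subst τ = NT g := by
  simp only [NT, hiC, loD, Fm.subst, subst_conj, subst_disj, List.map_map, Function.comp_def,
    subst_na hτ]

theorem subst_NB (i : I) (m : ℕ) : (NB i m).subst τ = NB i m := by
  simp only [NB, Fm.subst, subst_conj, subst_disj, List.map_map, Function.comp_def,
    subst_na hτ, subst_NT hτ]

theorem subst_seq (i : I) (a b c : Fm) (k : ℕ) :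
    (seqF i a b c k).subst τ = seqF i (a.subst τ) (b.subst τ) (c.subst τ) k := by
  induction k using Nat.strong_induction_on with
  | _ k ih =>
    rcases k with _ | _ | _ | k
    · rfl
    · rfl
    · rfl
    · simp only [seqF, stepF, Fm.subst, subst_NB hτ, ih k (by omega), ih (k + 1) (by omega),
        ih (k + 2) (by omega)]

theorem subst_NW (i : I) (k : ℕ) : (NW i k).subst τ = NW i k := by
  simp only [NW, subst_seq hτ, subst_NB hτ]

end syn

theorem seq_shift (i : I) (m k : ℕ) :
    seqF i (NW i m) (NW i (m + 1)) (NW i (m + 2)) k = NW i (m + k) := by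
  induction k using Nat.strong_induction_on with
  | _ k ih =>
    rcases k with _ | _ | _ | k
    · rfl
    · rfl
    · rfl
    · rw [seqF, ih k (by omega), ih (k + 1) (by omega), ih (k + 2) (by omega)]
      rfl

theorem subst_EE (τ : ℕ → Fm) (g : I → ℕ → Fm) (kk : I → ℕ) (ex : Fm) :
    (EE g kk ex).subst τ = EE (fun i k => (g i k).subst τ) kk (ex.subst τ) := by
  simp only [EE, Fm.subst, subst_conj, subst_disj, List.map_map, Function.comp_def]

theorem EE_congr {g g' : I → ℕ → Fm} {kk kk' : I → ℕ} (ex : Fm)
    (h : ∀ i t, g i (kk i + t) = g' i (kk' i + t)) : EE g kk ex = EE g' kk' ex := by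
  have h0 : ∀ i, g i (kk i) = g' i (kk' i) := fun i => h i 0
  simp only [EE, h, h0]

theorem NW_up {W : Type} (M : Model W) (i : I) {a : ℕ} (ha : 1 ≤ a) (y : W)
    (h : M.force (NW i a) y) (b : ℕ) : a + 2 ≤ b → M.force (NW i b) y := by
  induction b using Nat.strong_induction_on with
  | _ b ih =>
    intro hb
    obtain ⟨k, rfl⟩ : ∃ k, b = k + 3 := ⟨b - 3, by omega⟩
    intro u hu _
    by_cases h1 : a = k + 1
    · exact Or.inl (M.force_mono hu (h1 ▸ h))
    · by_cases h2 : a = k
      · exact Or.inr (Or.inl (M.force_mono hu (h2 ▸ h)))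
      · exact Or.inl (M.force_mono hu (ih (k + 1) (by omega) (by omega)))

/-- index of a register -/
def idx (r : Bool × Bool) : ℕ := 2 * r.1.toNat + r.2.toNat

/-- inverse of `idx` -/
def unidx (m : ℕ) : Bool × Bool := (decide (m / 2 = 1), decide (m % 2 = 1))

/-- variables for the registers -/
def uv (r : Bool × Bool) (t : ℕ) : Fm := .var (8 + 4 * t + idx r)

/-- the sequences used in the axioms -/
def GV (z : Option (Bool × Bool)) : I → ℕ → Fm
  | none => NW none
  | some r => if z = some r then NW (some r) else seqF (some r) (uv r 0) (uv r 1) (uv r 2)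

/-- the substitution for given register values -/
def sig (c : Bool × Bool → ℕ) (n : ℕ) : Fm :=
  if n < 8 then .var n else NW (some (unidx ((n - 8) % 4))) (c (unidx ((n - 8) % 4)) + (n - 8) / 4)

theorem sig_fix (c : Bool × Bool → ℕ) (j : Fin 8) : sig c j.val = .var j.val := if_pos j.2

theorem sig_uv (c : Bool × Bool → ℕ) (r : Bool × Bool) (t : ℕ) :
    (uv r t).subst (sig c) = NW (some r) (c r + t) := by
  have h1 : idx r < 4 := by rcases r with ⟨_ | _, _ | _⟩ <;> decide
  have h2 : unidx (idx r) = r := by rcases r with ⟨_ | _, _ | _⟩ <;> decide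
  have h3 : (8 + 4 * t + idx r - 8) % 4 = idx r := by omega
  have h4 : (8 + 4 * t + idx r - 8) / 4 = t := by omega
  simp only [uv, Fm.subst, sig]
  rw [if_neg (by omega), h3, h4, h2]

/-- offsets -/
def off (c : Bool × Bool → ℕ) : I → ℕ
  | none => 0
  | some r => c r

theorem GV_subst (c : Bool × Bool → ℕ) (z : Option (Bool × Bool)) (hz : ∀ r, z = some r → c r = 0)
    (i : I) (k : ℕ) : (GV z i k).subst (sig c) = NW i (off c i + k) := by
  rcases i with _ | r
  · simp only [GV, off, subst_NW (sig_fix c), zero_add]
  · simp only [GV, off]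
    split_ifs with h
    · rw [subst_NW (sig_fix c), hz r h, zero_add]
    · rw [subst_seq (sig_fix c), sig_uv, sig_uv, sig_uv]
      exact seq_shift _ _ _

variable {P : Type} (D : DM P (Bool × Bool)) (enc : Option P → ℕ)

/-- indices before a step -/
def k0 (o : Option P) : I → ℕ
  | none => enc o + 9
  | some _ => 9

/-- indices after a step -/
def k1 (p : P) (b : Bool) : I → ℕ
  | none => enc (D.nxt p b) + 9
  | some r => (D.vec p b r + 9).toNat

/-- the extra disjunct -/
def exF (p : P) : Bool → Fm
  | true => NW (some (D.reg p)) 8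
  | false => .bot

/-- the register tested to be zero -/
def zr (p : P) : Bool → Option (Bool × Bool)
  | true => none
  | false => some (D.reg p)

/-- axiom of an instruction -/
def axI (x : P × Bool) : Fm :=
  .imp (EE (GV (zr D x.1 x.2)) (k1 D enc x.1 x.2) .bot)
    (.or (EE (GV (zr D x.1 x.2)) (k0 enc (some x.1)) (exF D x.1 x.2)) RR)

/-- axiom of halting -/
def axH : Fm := .or (EE (GV none) (k0 enc none) .bot) RR

/-- positions of a configuration -/
def cpos (x : Option P × (Bool × Bool → ℤ)) : I → ℕ
  | none => enc x.1 + 9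
  | some r => (x.2 r).toNat + 9

/-- axiom of the start -/
def axS (x : Option P × (Bool × Bool → ℤ)) : Fm := .imp (EE NW (cpos enc x) .bot) RR

/-- the fixed part of the axiom -/
def axF (L : List (P × Bool)) : Fm :=
  .and (conj (L.map (axI D enc))) (.and (axH enc) ((visPrem 1).subst tau))

/-- the axiom -/
def AX (L : List (P × Bool)) (x : Option P × (Bool × Bool → ℤ)) : Fm :=
  .and (axF D enc L) (axS enc x)

theorem AX_of_RR (L : List (P × Bool)) (x : Option P × (Bool × Bool → ℤ)) {W : Type} (M : Model W)
    (w : W) (h : M.force RR w) : M.force (AX D enc L x) w := by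
  refine ⟨⟨?_, Or.inr h, Or.inr h⟩, fun u hu _ => M.force_mono hu h⟩
  rw [M.force_conj_map]
  exact fun a _ u hu _ => Or.inr (M.force_mono hu h)

theorem vec_ge (p : P) (b : Bool) (r : Bool × Bool) : -1 ≤ D.vec p b r := by
  cases b
  · have := D.hz p r; omega
  · by_cases h : r = D.reg p
    · rw [h, D.hp']
    · have := D.hp p r h; omega

theorem admits_of_halts (L : List (P × Bool)) (hL : ∀ a, a ∈ L) (x : Option P × (Bool × Bool → ℤ))
    (hx : ∀ j, 0 ≤ x.2 j) (h : D.Halts x) : AdmitsVisser (AX D enc L x) := by
  refine admits_of_negdisj ((List.finRange 8).map atm) ?_ fun W M w => AX_of_RR D enc L x M w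
  refine complete fun w => ?_
  change (canon _).force RR w
  set M := canon (AX D enc L x) with hM
  by_contra hn
  have hax : ∀ τ, (M.pull τ).force (AX D enc L x) w := fun τ =>
    (M.force_subst τ _ w).1 (canon_thm (.ax τ) w)
  have key : ∀ k (y : Option P × (Bool × Bool → ℤ)), (∀ j, 0 ≤ y.2 j) → (D.st^[k] y).1 = none →
      M.force (EE NW (cpos enc y) .bot) w := by
    have halt : ∀ c : Bool × Bool → ℤ, M.force (EE NW (cpos enc (none, c)) .bot) w := by
      intro c
      have h1 := (M.force_subst _ _ w).2 (hax (sig fun r => (c r).toNat)).1.2.1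
      simp only [axH, Fm.subst, subst_EE, subst_RR (sig_fix _),
        GV_subst (fun r => (c r).toNat) none (by simp)] at h1
      rw [EE_congr (g' := NW) (kk' := cpos enc (none, c))] at h1
      · exact h1.resolve_right hn
      · rintro (_ | r) t
        · simp only [off, k0, cpos, zero_add]
        · simp only [off, k0, cpos, add_assoc]
    intro k
    induction k with
    | zero =>
      rintro ⟨o, c⟩ _ h1
      obtain rfl : o = none := h1
      exact halt c
    | succ k ih =>
      rintro ⟨_ | p, c⟩ hc h1
      · exact halt c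
      · rw [Function.iterate_succ_apply] at h1
        have h2 := ih _ (D.st_nonneg _ hc) h1
        have h3 := (hax (sig fun r => (c r).toNat)).1.1
        rw [Model.force_conj_map] at h3
        have h4 := (M.force_subst _ _ w).2 (h3 (p, D.br p c) (hL _))
        have hz : ∀ r, zr D p (D.br p c) = some r → (c r).toNat = 0 := by
          intro r hr
          rcases hb : D.br p c with _ | _
          · rw [hb] at hr
            obtain rfl : D.reg p = r := Option.some.inj hr
            simp only [DM.br, decide_eq_false_iff_not] at hb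
            omega
          · rw [hb] at hr
            exact absurd hr (by simp [zr])
        simp only [axI, Fm.subst, subst_EE, subst_RR (sig_fix _),
          GV_subst (fun r => (c r).toNat) _ hz] at h4
        rw [EE_congr (g' := NW) (kk := k1 D enc p (D.br p c)) (kk' := cpos enc (D.st (some p, c))),
          EE_congr (g' := NW) (kk := k0 enc (some p)) (kk' := cpos enc (some p, c))] at h4
        · have h5 := (h4 w (M.refl w) h2).resolve_right hn
          intro u hu h6
          rcases h5 u hu h6 with h7 | h7
          · exact Or.inl h7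
          · rcases hb : D.br p c with _ | _
            · rw [hb] at h7
              exact h7.elim
            · rw [hb] at h7
              simp only [exF, subst_NW (sig_fix _)] at h7
              simp only [DM.br, decide_eq_true_eq] at hb
              left
              rw [M.force_disj_map]
              exact ⟨some (D.reg p), mem_allI _, NW_up M _ (by omega) u h7 _ (by
                simp only [cpos]; omega)⟩
        · rintro (_ | r) t
          · simp only [off, k0, cpos, zero_add]
          · simp only [off, k0, cpos, add_assoc]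
        · rintro (_ | r) t
          · simp only [off, k1, cpos, zero_add, DM.st]
          · have h5 := vec_ge D p (D.br p c) r
            have h6 : 0 ≤ c r + D.vec p (D.br p c) r := D.st_nonneg (some p, c) hc r
            have h7 : 0 ≤ c r := hc r
            simp only [off, k1, cpos, DM.st, Pi.add_apply]
            congr 1
            omega
  obtain ⟨k, hk⟩ := h
  have h1 := (M.force_subst _ _ w).2 (hax Fm.var)
  rw [Fm.subst_var] at h1
  exact hn (h1.2 w (M.refl w) (key k x hx hk))

theorem iter_nonneg (x : Option P × (Bool × Bool → ℤ)) (h : ∀ j, 0 ≤ x.2 j) (k : ℕ) :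
    ∀ j, 0 ≤ (D.st^[k] x).2 j := by
  induction k with
  | zero => exact h
  | succ k ih =>
    rw [Function.iterate_succ_apply']
    exact D.st_nonneg _ ih

theorem offsets {pos : ℕ → I → ℕ} {M : Model Pt} (hM : M.le = ple pos) {σ : Fin 8 ≃ Fin 8}
    (hσ : ∀ j y, M.force (na j) y ↔ σ j ∉ tops y) (z : Option (Bool × Bool)) (o : Option P)
    (ex : Fm) (h : ¬ M.force (EE (GV z) (k0 enc o) ex) .root) :
    ∃ j : I → ℕ, (∀ i k, Rg pos M (σ 7) (GV z i (3 + k)) i (j i + k)) ∧ j none = 3 ∧
      ∀ r, z = some r → j (some r) = 3 := by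
  have : ∀ i, ∃ j, (∀ k, Rg pos M (σ 7) (GV z i (3 + k)) i (j + k)) ∧
      ((i = none ∨ z = i) → j = 3) := by
    rintro (_ | r)
    · exact ⟨3, fun k => rg_NW hM hσ none _, fun _ => rfl⟩
    · by_cases hz : z = some r
      · refine ⟨3, fun k => ?_, fun _ => rfl⟩
        simp only [GV, if_pos hz]
        exact rg_NW hM hσ _ _
      · obtain ⟨u, hu⟩ := EE_refute M h (some r)
        simp only [GV, if_neg hz, k0] at hu ⊢
        obtain ⟨j, hj⟩ := rg_var hM hσ hu
        exact ⟨j, hj, fun h => by simp [hz] at h⟩
  choose j h1 h2 using this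
  exact ⟨j, h1, h2 none (Or.inl rfl), fun r hr => h2 _ (Or.inr hr)⟩

theorem not_EE' {pos : ℕ → I → ℕ} {M : Model Pt} (hM : M.le = ple pos) {d : Fin 8}
    {g : I → ℕ → Fm} {j : I → ℕ} (h : ∀ i k, Rg pos M d (g i (3 + k)) i (j i + k))
    (kk : I → ℕ) (hk : ∀ i, 3 ≤ kk i) (ex : Fm) :
    ¬ M.force (EE g kk ex) .root ↔
      ∃ n, (∀ i, pos n i + 3 = j i + kk i) ∧ ¬ M.force ex (.e d n) := by
  have h1 : ∀ i t, Rg pos M d (g i (kk i + t)) i (j i + (kk i - 3) + t) := by
    intro i t
    have h2 := h i (kk i - 3 + t)
    have h3 := hk i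
    rwa [show 3 + (kk i - 3 + t) = kk i + t by omega, ← add_assoc] at h2
  rw [not_EE hM (kk := kk) (a := fun i => j i + (kk i - 3)) (fun i => h1 i 0) (fun i => h1 i 1)
    (fun i => h1 i 2)]
  refine exists_congr fun n => and_congr_left fun _ => ?_
  rw [funext_iff]
  refine forall_congr' fun i => ?_
  have h3 := hk i
  omega

theorem valid (henc : Function.Injective enc) (L : List (P × Bool))
    (x : Option P × (Bool × Bool → ℤ)) (hx : ∀ j, 0 ≤ x.2 j) (h : ¬ D.Halts x) (M : Model Pt)
    (hM : M.le = ple fun n => cpos enc (D.st^[n] x)) (w : Pt) : M.force (AX D enc L x) w := by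
  refine M.force_mono (x := .root) (by rw [hM]; trivial) ?_
  by_cases hr : M.force RR .root
  · exact AX_of_RR D enc L x M _ hr
  obtain ⟨σ, hσ⟩ := exists_perm hM hr
  have hk0 : ∀ o i, 3 ≤ k0 enc o i := by
    rintro o (_ | r) <;> simp [k0]
  refine ⟨⟨?_, ?_, prem_valid hM hσ⟩, ?_⟩
  · rw [M.force_conj_map]
    rintro ⟨p, b⟩ - y - hy
    by_cases hy0 : y = .root
    · subst hy0
      left
      by_contra hn
      obtain ⟨j, h1, h2, h3⟩ := offsets enc hM hσ _ _ _ hn
      obtain ⟨n, h4, h5⟩ := (not_EE' hM h1 _ (hk0 _) _).1 hn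
      have hnn := iter_nonneg D x hx n
      have hsucc : D.st^[n + 1] x = D.st (D.st^[n] x) := Function.iterate_succ_apply' _ _ _
      rcases hy' : D.st^[n] x with ⟨o, c⟩
      simp only [hy'] at h4 hnn hsucc
      obtain rfl : o = some p := by
        have := h4 none
        simp only [cpos, k0, h2] at this
        exact henc (by omega)
      have hb : D.br p c = b := by
        have h6 := h4 (some (D.reg p))
        simp only [cpos, k0] at h6
        cases b
        · have h7 := h3 (D.reg p) rfl
          simp only [DM.br, decide_eq_false_iff_not]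
          omega
        · have h7 := (rg_NW hM hσ _ 8 _).1 h5
          simp only [ple, lad, hy', cpos] at h7
          simp only [DM.br, decide_eq_true_eq]
          omega
      refine (not_EE' hM h1 (k1 D enc p b) ?_ .bot).2 ⟨n + 1, ?_, id⟩ hy
      · rintro (_ | r)
        · simp [k1]
        · have := vec_ge D p b r
          simp only [k1]
          omega
      · rintro (_ | r)
        · simp only [hsucc, DM.st, cpos, k1, hb, h2]
          omega
        · have h6 := h4 (some r)
          have h7 := vec_ge D p b r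
          have h8 : 0 ≤ c r + D.vec p (D.br p c) r := D.st_nonneg (some p, c) hnn r
          have h9 : 0 ≤ c r := hnn r
          simp only [hsucc, DM.st, cpos, k1, k0, hb, Pi.add_apply] at h6 h8 ⊢
          omega
    · exact Or.inr (RR_of_ne hσ hy0)
  · left
    by_contra hn
    obtain ⟨j, h1, h2, -⟩ := offsets enc hM hσ _ _ _ hn
    obtain ⟨n, h4, -⟩ := (not_EE' hM h1 _ (hk0 _) _).1 hn
    have := h4 none
    simp only [cpos, k0, h2] at this
    exact h ⟨n, henc (by omega)⟩
  · intro y _ hy
    by_cases hy0 : y = .root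
    · subst hy0
      exact absurd hy ((not_EE hM (d := σ 7) (a := cpos enc x) (fun i => rg_NW hM hσ i _)
        (fun i => rg_NW hM hσ i _) (fun i => rg_NW hM hσ i _)).2 ⟨0, rfl, id⟩)
    · exact RR_of_ne hσ hy0

/-- the standard model on the frame -/
def M0 (pos : ℕ → I → ℕ) : Model Pt where
  le := ple pos
  v i y := ∃ j : Fin 8, i = j.val ∧ y = top j
  refl := ple_refl
  trans := ple_trans
  mono := by
    rintro i x y h ⟨j, rfl, rfl⟩
    exact ⟨j, rfl, top_max h⟩

theorem M0_not (pos : ℕ → I → ℕ) : ¬ (M0 pos).force RR .root := by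
  rw [force_RR]
  rintro ⟨j, hj⟩
  refine hj (top j) trivial ⟨⟨j, rfl, rfl⟩, ?_⟩
  rw [Model.force_conj_map]
  rintro k hk u hu ⟨l, h1, h2⟩
  obtain rfl : k = l := Fin.ext h1
  have h3 := (top_max hu).symm.trans h2
  simp only [top, Pt.t.injEq, Subtype.mk.injEq, Finset.singleton_inj] at h3
  simp [h3] at hk

theorem not_admits (henc : Function.Injective enc) (L : List (P × Bool))
    (x : Option P × (Bool × Bool → ℤ)) (hx : ∀ j, 0 ≤ x.2 j) (h : ¬ D.Halts x) :
    ¬ AdmitsVisser (AX D enc L x) := by
  intro ha
  have h1 : Thm (AX D enc L x) (AX D enc L x) := by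
    have := Thm.ax (A := AX D enc L x) Fm.var
    rwa [Fm.subst_var] at this
  have h2 : Thm (AX D enc L x) ((visPrem 1).subst tau) :=
    .mp (.andr _ _) (.mp (.andr _ _) (.mp (.andl _ _) h1))
  have h3 := ha 1 le_rfl tau h2
  let pos : ℕ → I → ℕ := fun n => cpos enc (D.st^[n] x)
  obtain ⟨σ, hσ⟩ := exists_perm (M := M0 pos) (pos := pos) rfl (M0_not pos)
  refine conc_refuted (M := M0 pos) (pos := pos) rfl hσ ((M0 pos).sound (fun τ w => ?_) h3 _)
  rw [Model.force_subst]
  exact valid D enc henc L x hx h _ rfl w

end Pool.Agent.H616Z.Vis
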