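import Pool.Agent.H616Z.Vis.Frame

/-!
Rigidity of the formulas on the frame under any valuation refuting `RR`.
-/

set_option autoImplicit false

namespace Pool.Agent.H616Z.Vis

variable {pos : ℕ → I → ℕ}

theorem Model.force_conj_map {W α : Type} (M : Model W) (w : W) (l : List α) (f : α → Fm) :
    M.force (conj (l.map f)) w ↔ ∀ a ∈ l, M.force (f a) w := by
  rw [M.force_conj, List.forall_mem_map]

theorem Model.force_disj_map {W α : Type} (M : Model W) (w : W) (l : List α) (f : α → Fm) :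
    M.force (disj (l.map f)) w ↔ ∃ a ∈ l, M.force (f a) w := by
  rw [M.force_disj]
  simp only [List.mem_map, exists_exists_and_eq_and]

/-- the image of the first `g` atoms -/
def SS (σ : Fin 8 ≃ Fin 8) (g : ℕ) : Finset (Fin 8) :=
  (Finset.univ.filter fun j : Fin 8 => j.val < g).map σ.toEmbedding

theorem mem_SS {σ : Fin 8 ≃ Fin 8} {g : ℕ} {j : Fin 8} : σ j ∈ SS σ g ↔ j.val < g := by
  simp [SS]

theorem card_SS (σ : Fin 8 ≃ Fin 8) {g : ℕ} (h : g ≤ 6) : (SS σ g).card = g := by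
  unfold SS
  rw [Finset.card_map]
  interval_cases g <;> decide

/-- the point above the first `g` final points -/
def tS (σ : Fin 8 ≃ Fin 8) (g : ℕ) (h : g ∈ GG) : Pt :=
  .t ⟨SS σ g, ⟨σ 0, mem_SS.2 (by have := GG_range h; simp; omega)⟩,
    by rw [card_SS σ (GG_range h).2]; exact (GG_range h).2⟩

theorem ple_w_tS (σ : Fin 8 ≃ Fin 8) (i : I) (m g : ℕ) (h : g ∈ GG) :
    ple pos (.w (σ 7) i m) (tS σ g h) ↔ g ∈ Kl i m := by
  have h1 := GG_range h
  simp only [tS, ple, mem_SS, card_SS σ h1.2]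
  constructor
  · rintro ⟨-, h2 | h2⟩
    · omega
    · exact h2
  · intro h2
    exact ⟨by simp; omega, Or.inr h2⟩

/-- the formula `φ` is refuted exactly at the points seeing the ladder point -/
def Rg (pos : ℕ → I → ℕ) (M : Model Pt) (d : Fin 8) (φ : Fm) (i : I) (a : ℕ) : Prop :=
  ∀ y, ¬ M.force φ y ↔ ple pos y (.w d i a)

section rigid

variable {M : Model Pt} (hM : M.le = ple pos) {σ : Fin 8 ≃ Fin 8}
  (hσ : ∀ j y, M.force (na j) y ↔ σ j ∉ tops y)
include hσ

theorem RR_of_ne {y : Pt} (h : y ≠ .root) : M.force RR y := by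
  obtain ⟨s, hs⟩ := exists_miss h
  obtain ⟨j, rfl⟩ := σ.surjective s
  exact (force_RR M y).2 ⟨j, (hσ j y).2 hs⟩

include hM

theorem not_NT {g : ℕ} (h : g ∈ GG) (y : Pt) :
    ¬ M.force (NT g) y ↔ ple pos y (tS σ g h) := by
  unfold NT
  rw [M.not_force_imp, hM]
  simp only [force_hiC, force_loD, hσ, not_exists, not_and, not_not]
  constructor
  · rintro ⟨u, h1, h2, h3⟩
    have h4 : tops u = SS σ g := by
      ext s
      obtain ⟨j, rfl⟩ := σ.surjective s
      rw [mem_SS]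
      exact ⟨fun h5 => by by_contra h6; exact h2 j (by omega) h5, h3 j⟩
    obtain ⟨S, rfl⟩ := tops_card (y := u) (by rw [h4, card_SS σ (GG_range h).2]; exact (GG_range h).2)
    have : Pt.t S = tS σ g h := congrArg Pt.t (Subtype.ext h4)
    rwa [this] at h1
  · intro h1
    refine ⟨_, h1, fun j hj => ?_, fun j hj => ?_⟩
    · simp only [tS, tops, mem_SS]; omega
    · simp only [tS, tops, mem_SS]; omega

theorem rg_NB (i : I) {m : ℕ} (hm : m ≤ 2) : Rg pos M (σ 7) (NB i m) i m := by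
  intro y
  have key : ∀ u, (M.force (.and (na 7) (conj ((GG.filter (· ∉ Kl i m)).map NT))) u ∧
      ¬ M.force (disj ((Kl i m).map NT)) u) ↔
      (σ 7 ∉ tops u ∧ ∀ g (h : g ∈ GG), ple pos u (tS σ g h) ↔ g ∈ Kl i m) := by
    intro u
    simp only [Model.force, M.force_conj_map, M.force_disj_map, hσ, List.mem_filter,
      not_exists, not_and, decide_eq_true_eq, and_imp, and_assoc]
    refine and_congr_right fun _ => ⟨fun ⟨h1, h2⟩ g hg => ?_, fun h1 => ⟨fun g hg h2 => ?_,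
      fun g hg => ?_⟩⟩
    · rw [← not_NT hM hσ hg]
      exact ⟨fun h3 => by by_contra h4; exact h3 (h1 g hg h4), h2 g⟩
    · by_contra h3
      exact h2 ((h1 g hg).1 ((not_NT hM hσ hg u).1 h3))
    · exact (not_NT hM hσ (Kl_sub i m g hg) u).2 ((h1 g _).2 hg)
  unfold NB
  rw [M.not_force_imp, hM]
  simp only [key]
  constructor
  · rintro ⟨u, h1, h2, h3⟩
    cases u with
    | root => exact absurd (Finset.mem_univ _) h2
    | t S =>
      exfalso
      obtain ⟨g1, hg1, g2, hg2, hne⟩ := Kl_two i m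
      have aux : ∀ g (hg : g ∈ Kl i m), S.1.card = g := by
        intro g hg
        have h4 := GG_range (Kl_sub i m g hg)
        rcases (h3 g (Kl_sub i m g hg)).2 hg with h5 | h5
        · rw [← h5]; exact card_SS σ h4.2
        · have := h5.1
          simp only [card_SS σ h4.2] at this
          omega
      exact hne ((aux g1 hg1).symm.trans (aux g2 hg2))
    | e d k =>
      exfalso
      obtain rfl : σ 7 = d := by simpa [tops] using h2
      obtain ⟨g, hg, h4⟩ := Kl_miss i hm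
      have h5 := GG_range hg
      apply h4 ((h3 g hg).1 _)
      simp only [tS, ple, mem_SS]
      simp; omega
    | w d i' m' =>
      obtain rfl : σ 7 = d := by simpa [tops] using h2
      obtain ⟨rfl, rfl⟩ := Kl_inj (i' := i') (m' := m') hm fun g hg => by
        rw [← h3 g hg, ple_w_tS]
      exact h1
  · intro h1
    exact ⟨_, h1, by simp [tops], fun g hg => ple_w_tS σ i m g hg⟩

theorem not_step (i : I) (x0 x1 x2 : Fm) (y : Pt) :
    ¬ M.force (stepF i x0 x1 x2) y ↔ ∃ m, ple pos y (.w (σ 7) i m) ∧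
      M.force x2 (.w (σ 7) i m) ∧ ¬ M.force x1 (.w (σ 7) i m) ∧ ¬ M.force x0 (.w (σ 7) i m) := by
  have h0 : ∀ i u, M.force (NB i 0) u ↔ ¬ ple pos u (.w (σ 7) i 0) := fun i u => by
    rw [← rg_NB hM hσ i (by omega) u, not_not]
  have h1 : ∀ i u, M.force (NB i 1) u ↔ ¬ ple pos u (.w (σ 7) i 1) := fun i u => by
    rw [← rg_NB hM hσ i (by omega) u, not_not]
  unfold stepF
  rw [M.not_force_imp, hM]
  simp only [Model.force, h0, h1, not_or]
  constructor
  · rintro ⟨u, h2, ⟨⟨h3, h4⟩, h5⟩, h6, h7, h8⟩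
    cases u with
    | root => exact absurd trivial h3
    | t S => exact absurd ⟨id, id⟩ h8
    | e d k =>
      exfalso
      simp only [ple, lad] at h3 h4 h8
      by_cases hd : σ 7 = d
      · simp only [hd, true_and] at h3 h4
        omega
      · simp [hd] at h8
    | w d i' m =>
      have : σ 7 = d ∧ i = i' := by
        by_contra hn
        exact h8 ⟨fun h => hn ⟨h.1, h.2.1⟩, fun h => hn ⟨h.1, h.2.1⟩⟩
      obtain ⟨rfl, rfl⟩ := this
      exact ⟨m, h2, h5, h6, h7⟩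
  · rintro ⟨m, h2, h3, h4, h5⟩
    refine ⟨_, h2, ⟨⟨fun h => nx_ne i h.2.1, fun h => nx_ne i h.2.1⟩, h3⟩, h4, h5, ?_⟩
    simp only [ple, lad, true_and]
    omega

theorem rg_step {i : I} {x0 x1 x2 : Fm} {a : ℕ} (h0 : Rg pos M (σ 7) x0 i a)
    (h1 : Rg pos M (σ 7) x1 i (a + 1)) (h2 : Rg pos M (σ 7) x2 i (a + 2)) :
    Rg pos M (σ 7) (stepF i x0 x1 x2) i (a + 3) := by
  intro y
  rw [not_step hM hσ]
  have h3 : ∀ u, M.force x2 u ↔ ¬ ple pos u (.w (σ 7) i (a + 2)) := fun u => by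
    rw [← h2 u, not_not]
  simp only [h3, h0 _, h1 _]
  constructor
  · rintro ⟨m, h4, h5, h6, h7⟩
    simp only [ple, lad, true_and] at h5 h6 h7
    obtain rfl : m = a + 3 := by omega
    exact h4
  · intro h4
    refine ⟨_, h4, ?_⟩
    simp only [ple, lad, true_and]
    omega

theorem rg_seq {i : I} {a b c : Fm} {n j : ℕ} (h0 : Rg pos M (σ 7) (seqF i a b c n) i j)
    (h1 : Rg pos M (σ 7) (seqF i a b c (n + 1)) i (j + 1))
    (h2 : Rg pos M (σ 7) (seqF i a b c (n + 2)) i (j + 2)) (k : ℕ) :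
    Rg pos M (σ 7) (seqF i a b c (n + k)) i (j + k) := by
  induction k using Nat.strong_induction_on with
  | _ k ih =>
    rcases k with _ | _ | _ | k
    · exact h0
    · exact h1
    · exact h2
    · exact rg_step hM hσ (ih k (by omega)) (ih (k + 1) (by omega)) (ih (k + 2) (by omega))

theorem rg_NW (i : I) (k : ℕ) : Rg pos M (σ 7) (NW i k) i k := by
  have := rg_seq hM hσ (i := i) (a := NB i 0) (b := NB i 1) (c := NB i 2) (n := 0) (j := 0)
    (rg_NB hM hσ i (by omega)) (rg_NB hM hσ i (by omega)) (rg_NB hM hσ i (by omega)) k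
  simpa [NW] using this

theorem rg_var {i : I} {a b c : Fm} {y : Pt} (h : ¬ M.force (seqF i a b c 9) y) :
    ∃ j, ∀ k, Rg pos M (σ 7) (seqF i a b c (3 + k)) i (j + k) := by
  let D : ℕ → ℕ → Prop := fun k m => ¬ M.force (seqF i a b c k) (.w (σ 7) i m)
  have up : ∀ k m m', D k m → lad m' m → D k m' := fun k m m' h1 h2 h3 =>
    h1 (M.force_mono (by rw [hM]; exact ⟨rfl, rfl, h2⟩) h3)
  let X : ℕ → ℕ → Prop := fun k m => ¬ D (k + 2) m ∧ D (k + 1) m ∧ D k m
  have st : ∀ k u, ¬ M.force (seqF i a b c (k + 3)) u ↔ ∃ m, ple pos u (.w (σ 7) i m) ∧ X k m := by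
    intro k u
    rw [seqF, not_step hM hσ]
    simp only [X, D, not_not]
  have stD : ∀ k m, D (k + 3) m ↔ ∃ m', lad m m' ∧ X k m' := by
    intro k m
    simp only [D]
    rw [st]
    simp only [ple, true_and]
  obtain ⟨m9, -, -, h7, -⟩ := (st 6 y).1 h
  obtain ⟨m7, -, -, h5, h4⟩ := (stD 4 m9).1 h7
  obtain ⟨x5, -, hx5⟩ := (stD 2 m7).1 h5
  obtain ⟨x4, -, hx4⟩ := (stD 1 m7).1 h4
  -- the general shape
  have shape : ∀ y4 y5, X 1 y4 → X 2 y5 → ∃ y3, X 0 y3 ∧ y4 = y3 + 1 ∧ y5 = y3 + 2 := by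
    intro y4 y5 g4 g5
    obtain ⟨y3, l3, g3⟩ := (stD 0 y5).1 g5.2.1
    refine ⟨y3, g3, ?_⟩
    have e1 : ¬ lad y4 y3 := fun h => g4.1 ((stD 0 y4).2 ⟨y3, h, g3⟩)
    have e2 : ¬ lad y3 y4 := fun h => g3.1 (up 2 y4 y3 g4.2.1 h)
    have e3 : ¬ lad y5 y4 := fun h => g5.1 ((stD 1 y5).2 ⟨y4, h, g4⟩)
    have e4 : y5 ≠ y3 := fun h => g3.1 (h ▸ g5.2.2)
    unfold lad at *
    omega
  obtain ⟨j, hj, e4, e5⟩ := shape x4 x5 hx4 hx5
  have u3 : ∀ m, X 0 m ↔ m = j := by
    refine fun m => ⟨fun g3 => ?_, fun h => h ▸ hj⟩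
    have e1 : ¬ lad x4 m := fun h => hx4.1 ((stD 0 x4).2 ⟨m, h, g3⟩)
    have e2 : ¬ lad m x4 := fun h => g3.1 (up 2 x4 m hx4.2.1 h)
    have e3 : x5 ≠ m := fun h => g3.1 (h ▸ hx5.2.2)
    unfold lad at *
    omega
  have u4 : ∀ m, X 1 m ↔ m = j + 1 := by
    refine fun m => ⟨fun g => ?_, fun h => h ▸ e4 ▸ hx4⟩
    obtain ⟨y3, -, e6, e7⟩ := shape m x5 g hx5
    omega
  have u5 : ∀ m, X 2 m ↔ m = j + 2 := by
    refine fun m => ⟨fun g => ?_, fun h => h ▸ e5 ▸ hx5⟩
    obtain ⟨y3, -, e6, e7⟩ := shape x4 m hx4 g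
    omega
  refine ⟨j, rg_seq hM hσ (fun u => ?_) (fun u => ?_) (fun u => ?_)⟩
  · rw [st 0]; simp only [u3, exists_eq_right]
  · rw [st 1]; simp only [u4, exists_eq_right]
  · rw [st 2]; simp only [u5, exists_eq_right]

omit hσ in
theorem not_EE {g : I → ℕ → Fm} {kk a : I → ℕ} {ex : Fm} {d : Fin 8}
    (h0 : ∀ i, Rg pos M d (g i (kk i)) i (a i))
    (h1 : ∀ i, Rg pos M d (g i (kk i + 1)) i (a i + 1))
    (h2 : ∀ i, Rg pos M d (g i (kk i + 2)) i (a i + 2)) :
    ¬ M.force (EE g kk ex) .root ↔ ∃ n, pos n = a ∧ ¬ M.force ex (.e d n) := by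
  have h3 : ∀ i u, M.force (g i (kk i + 1)) u ↔ ¬ ple pos u (.w d i (a i + 1)) := fun i u => by
    rw [← h1 i u, not_not]
  have h4 : ∀ i u, M.force (g i (kk i + 2)) u ↔ ¬ ple pos u (.w d i (a i + 2)) := fun i u => by
    rw [← h2 i u, not_not]
  unfold EE
  rw [M.not_force_imp, hM]
  simp only [Model.force, M.force_conj_map, M.force_disj_map, mem_allI,
    forall_const, true_and, not_or, not_exists, h0 _ _, h3, h4]
  constructor
  · rintro ⟨u, -, h5, h6, h7⟩
    cases u with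
    | root => exact absurd trivial (h5 none).1
    | t S => exact (h6 none).elim
    | w d' i m =>
      exact absurd ((h6 (nx i)).2.1) (nx_ne i)
    | e d' k =>
      obtain rfl : d = d' := (h6 none).1
      refine ⟨k, funext fun i => ?_, h7⟩
      have h8 := h5 i
      have h9 := h6 i
      simp only [ple, lad, true_and] at h8 h9
      omega
  · rintro ⟨n, rfl, h5⟩
    refine ⟨.e d n, trivial, fun i => ?_, fun i => ?_, h5⟩
    · simp only [ple, lad, true_and]
      omega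
    · simp only [ple, lad, true_and, true_or]

omit hM hσ in
theorem EE_refute {W : Type} (N : Model W) {g : I → ℕ → Fm} {kk : I → ℕ} {ex : Fm} {y : W}
    (h : ¬ N.force (EE g kk ex) y) (i : I) : ∃ u, ¬ N.force (g i (kk i)) u := by
  obtain ⟨u, -, -, h1⟩ := N.not_force_imp.1 h
  refine ⟨u, fun h2 => h1 (Or.inl ?_)⟩
  rw [N.force_disj]
  exact ⟨_, List.mem_map_of_mem (mem_allI i), h2⟩

/-- the substitution for the first rule -/
def tau : ℕ → Fm
  | 0 => RR
  | 3 => hiC 2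
  | 4 => loD 2
  | 5 => loD 4
  | _ => hiD 4

theorem prem_valid : M.force ((visPrem 1).subst tau) .root := by
  left
  intro u _ hu
  have h1 : M.force (NT 2) u := hu
  have h2 : u ≠ .root := by
    rintro rfl
    exact (not_NT hM hσ (g := 2) (by decide) .root).2 trivial h1
  obtain ⟨s, hs⟩ := exists_miss h2
  obtain ⟨j, rfl⟩ := σ.surjective s
  by_cases hj : j.val < 4
  · exact Or.inl ((force_loD M 4 u).2 ⟨j, hj, (hσ j u).2 hs⟩)
  · exact Or.inr ((force_hiD M 4 u).2 ⟨j, by omega, (hσ j u).2 hs⟩)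

theorem conc_refuted : ¬ M.force ((visConc 1).subst tau) .root := by
  have hnt : ∀ S : TS, S.1.card ≠ 2 → M.force (NT 2) (.t S) := by
    intro S hS
    by_contra hn
    rcases (not_NT hM hσ (g := 2) (by decide) _).1 hn with h | h
    · exact hS (by rw [← h]; exact card_SS σ (by omega))
    · have := h.1
      simp only [card_SS σ (g := 2) (by omega)] at this
      omega
  have hle : ∀ u, M.le .root u := fun u => by rw [hM]; trivial
  rintro ((h | h | h) | h)
  · have h1 : M.force (hiC 2) (top (σ 2)) := h _ (hle _) (hnt _ (by simp))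
    exact (hσ 2 _).1 ((force_hiC M 2 _).1 h1 2 (by simp)) (by simp [top, tops])
  · have h1 : M.force (loD 4) (tS σ 4 (by decide)) :=
      h _ (hle _) (hnt _ (by simp only [card_SS σ (g := 4) (by omega)]; omega))
    obtain ⟨j, h2, h3⟩ := (force_loD M 4 _).1 h1
    exact (hσ j _).1 h3 (mem_SS.2 h2)
  · have hc : (Finset.univ \ SS σ 4).card = 4 := by
      rw [Finset.card_univ_sdiff, card_SS σ (by omega)]
      rfl
    have h1 : M.force (hiD 4) (.t ⟨Finset.univ \ SS σ 4, Finset.card_pos.1 (by omega), by omega⟩) :=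
      h _ (hle _) (hnt _ (by simp only [hc]; omega))
    obtain ⟨j, h2, h3⟩ := (force_hiD M 4 _).1 h1
    apply (hσ j _).1 h3
    simp only [tops, Finset.mem_sdiff, Finset.mem_univ, mem_SS, true_and]
    omega
  · obtain ⟨j, hj⟩ := (force_RR M _).1 h
    exact (hσ j _).1 hj (Finset.mem_univ _)

end rigid

end Pool.Agent.H616Z.Vis
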